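import Pool.Agent.H37.Neg1

namespace Pool.Agent.Results.MP_1b3940_lc.Yes

open Pool.Agent.H37.Neg

theorem result (φ : ℕ → ℕ →. ℕ) (hφ : Acceptable φ) (i : ℕ) (hi : 1 ≤ i) :
    ∃ M : List Datum → ℕ, Computable M ∧ ∀ L : Set ℕ, REPred (· ∈ L) → Identifies φ M i L := by
  obtain ⟨M, hM, h⟩ := main hφ
  refine ⟨M, hM, fun L hL => ?_⟩
  obtain ⟨S, h1, h2, h3⟩ := h L hL
  exact ⟨S, h1, h2.trans hi, h3⟩

end Pool.Agent.Results.MP_1b3940_lc.Yes
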